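import Mathlib

/-!
# The Kloosterman angles at the primes, together with `π`, are linearly independent over the rational numbers
-/

set_option autoImplicit false

namespace Pool.Agent.Results.MP_6ea630_nt.AnglesIndependent

open Finset

/-- The complete exponential sum `∑_{x = 1}^{p - 1} e(f(x) / p)`. -/
noncomputable def expSum (p : ℕ) (f : ℕ → ℕ) : ℂ :=
  ∑ x ∈ Ico 1 p, Complex.exp (2 * Real.pi * Complex.I * ((f x : ℂ) / (p : ℂ)))

/-- The Kloosterman sum `S(a, b; p)`, the sum over `x = 1, …, p - 1` of `e((a x + b x⁻¹) / p)`. -/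
noncomputable def kloosterman (a b : ℤ) (p : ℕ) : ℂ :=
  expSum p (fun x => ((a : ZMod p) * (x : ZMod p) + (b : ZMod p) * (x : ZMod p)⁻¹).val)

/-- a valuation of `ℂ` above `p` -/
lemma exists_val (p : ℕ) (hp : p.Prime) :
    ∃ V : ValuationSubring ℂ, V.valuation (p : ℂ) < 1 := by
  let A : Subring ℂ := (Int.castRingHom ℂ).range
  let P : A := ⟨(p : ℂ), ⟨(p : ℤ), by simp⟩⟩
  have hI : Ideal.span {P} ≠ ⊤ := by
    intro h
    have h1 : (1 : A) ∈ Ideal.span {P} := by rw [h]; trivial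
    rw [Ideal.mem_span_singleton'] at h1
    obtain ⟨⟨_, ⟨n, rfl⟩⟩, hn⟩ := h1
    have h2 : ((n : ℤ) : ℂ) * (p : ℂ) = 1 := by
      have := congrArg Subtype.val hn
      simpa [P] using this
    have h3 : (n * (p : ℤ) : ℤ) = 1 := by exact_mod_cast h2
    have h4 : (p : ℤ) ∣ 1 := ⟨n, by rw [← h3]; ring⟩
    have h5 : (p : ℤ) = 1 := Int.eq_one_of_dvd_one (by positivity) h4
    have h6 : p = 1 := by exact_mod_cast h5
    exact hp.one_lt.ne' h6
  obtain ⟨V, hV⟩ := Ideal.image_subset_nonunits_valuationSubring (A := A) _ hI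
  refine ⟨V, ?_⟩
  have : (p : ℂ) ∈ V.nonunits := by
    apply hV.2
    exact ⟨P, Ideal.mem_span_singleton_self P, rfl⟩
  exact V.mem_nonunits_iff.1 this

lemma pow1 {Γ : Type*} [LinearOrderedCommGroupWithZero Γ] {x : Γ} {n : ℕ} (hn : n ≠ 0) (h : x ^ n = 1) :
    x = 1 := by
  rcases lt_trichotomy x 1 with h1 | h1 | h1
  · exact absurd h (pow_lt_one₀ zero_le h1 hn).ne
  · exact h1
  · exact absurd h (one_lt_pow₀ h1 hn).ne'

section
variable {Γ : Type*} [LinearOrderedCommGroupWithZero Γ] (v : Valuation ℂ Γ)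

lemma val_add_inv {z : ℂ} (hz : z ≠ 0) (h : v (z + z⁻¹) ≤ 1) : v z = 1 := by
  rcases lt_trichotomy (v z) 1 with h1 | h1 | h1
  · exfalso
    have h0 : 0 < v z := (Valuation.pos_iff v).2 hz
    have h2 : 1 < v z⁻¹ := by
      rw [map_inv₀]; exact (one_lt_inv₀ h0).2 h1
    have h3 : v (z + z⁻¹) = v z⁻¹ := Valuation.map_add_eq_of_lt_right v (h1.trans h2)
    rw [h3] at h
    exact absurd h (not_le.2 h2)
  · exact h1
  · exfalso
    have h0 : 0 < v z := (Valuation.pos_iff v).2 hz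
    have h2 : v z⁻¹ < 1 := by
      rw [map_inv₀]; exact inv_lt_one_of_one_lt₀ h1
    have h3 : v (z + z⁻¹) = v z := Valuation.map_add_eq_of_lt_left v (h2.trans h1)
    rw [h3] at h
    exact absurd h (not_le.2 h1)

lemma val_ne {z : ℂ} (h : 1 < v (z + z⁻¹)) : v z ≠ 1 := by
  intro h1
  have h2 : v (z + z⁻¹) ≤ max (v z) (v z⁻¹) := v.map_add z z⁻¹
  rw [map_inv₀, h1, inv_one, max_self] at h2
  exact absurd h2 (not_le.2 h)

end

lemma val_root (V : ValuationSubring ℂ) (p : ℕ) (hp : p.Prime) {w : ℂ} (hw : w ^ p = 1) :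
    V.valuation w = 1 := by
  have h : V.valuation w ^ p = 1 := by rw [← map_pow, hw, map_one]
  exact pow1 hp.ne_zero h

lemma val_sub_one (V : ValuationSubring ℂ) (p : ℕ) (hp : p.Prime) (hV : V.valuation (p : ℂ) < 1)
    {w : ℂ} (hw : w ^ p = 1) : V.valuation (w - 1) < 1 := by
  have h1 : w ∈ V := (V.valuation_le_one_iff w).1 (val_root V p hp hw).le
  obtain ⟨r, hr⟩ := exists_add_pow_prime_eq hp ((⟨w, h1⟩ : V) - 1) (1 : V)
  have hr2 : (w - 1 + 1) ^ p = (w - 1) ^ p + 1 ^ p + (p : ℂ) * (w - 1) * 1 * (r : ℂ) := by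
    have := congrArg Subtype.val hr
    simpa using this
  have hr3 : (w - 1) ^ p = - ((p : ℂ) * ((w - 1) * (r : ℂ))) := by
    have : (w - 1 + 1) = w := by ring
    rw [this, hw, one_pow] at hr2
    linear_combination -hr2
  have h2 : V.valuation ((w - 1) * (r : ℂ)) ≤ 1 := by
    rw [V.valuation_le_one_iff]
    exact V.mul_mem _ _ (V.sub_mem h1 V.one_mem) r.2
  have h3 : V.valuation (w - 1) ^ p < 1 := by
    rw [← map_pow, hr3, Valuation.map_neg, map_mul]
    calc V.valuation (p : ℂ) * V.valuation ((w - 1) * (r : ℂ)) ≤ V.valuation (p : ℂ) * 1 :=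
          mul_le_mul_right h2 _
      _ < 1 := by rw [mul_one]; exact hV
  by_contra h4
  exact absurd h3 (not_lt.2 (one_le_pow₀ (not_lt.1 h4)))

lemma exp_pow (p : ℕ) (hp : p.Prime) (k : ℕ) :
    (Complex.exp (2 * Real.pi * Complex.I * ((k : ℂ) / (p : ℂ)))) ^ p = 1 := by
  rw [← Complex.exp_nat_mul]
  have hp0 : (p : ℂ) ≠ 0 := by exact_mod_cast hp.ne_zero
  have : (p : ℂ) * (2 * Real.pi * Complex.I * ((k : ℂ) / (p : ℂ))) = (k : ℂ) * (2 * Real.pi * Complex.I) := by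
    field_simp
  rw [this]
  exact Complex.exp_nat_mul_two_pi_mul_I k

lemma val_nat_le (V : ValuationSubring ℂ) (n : ℤ) : V.valuation (n : ℂ) ≤ 1 := by
  rw [V.valuation_le_one_iff]
  exact intCast_mem V n

lemma val_expSum_le (V : ValuationSubring ℂ) (q : ℕ) (hq : q.Prime) (f : ℕ → ℕ) :
    V.valuation (expSum q f) ≤ 1 := by
  rw [V.valuation_le_one_iff]
  unfold expSum
  apply sum_mem
  intro x _
  exact (V.valuation_le_one_iff _).1 (val_root V q hq (exp_pow q hq (f x))).le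

lemma val_expSum_self (V : ValuationSubring ℂ) (p : ℕ) (hp : p.Prime) (hV : V.valuation (p : ℂ) < 1)
    (f : ℕ → ℕ) : V.valuation (expSum p f) = 1 := by
  have h1 : V.valuation (∑ x ∈ Ico 1 p, (Complex.exp (2 * Real.pi * Complex.I * ((f x : ℂ) / (p : ℂ))) - 1)) < 1 :=
    Valuation.map_sum_lt _ one_ne_zero (fun x _ => val_sub_one V p hp hV (exp_pow p hp (f x)))
  have h2 : (∑ x ∈ Ico 1 p, (Complex.exp (2 * Real.pi * Complex.I * ((f x : ℂ) / (p : ℂ))) - 1))
      = expSum p f + 1 - p := by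
    rw [sum_sub_distrib]
    simp only [sum_const, Nat.card_Ico, nsmul_eq_mul, mul_one, expSum]
    rw [Nat.cast_sub hp.one_le]
    push_cast
    ring
  rw [h2] at h1
  have h3 : V.valuation ((expSum p f + 1 - p) + p) < 1 := Valuation.map_add_lt _ h1 hV
  have h4 : expSum p f = (expSum p f + 1 - p + p) + (-1) := by ring
  have h5 : V.valuation (-1 : ℂ) = 1 := by rw [Valuation.map_neg, map_one]
  have h6 : V.valuation (expSum p f + 1 - p + p) < V.valuation (-1 : ℂ) := by rw [h5]; exact h3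
  rw [h4, Valuation.map_add_eq_of_lt_right _ h6, h5]

lemma val_other (V : ValuationSubring ℂ) (p q : ℕ) (hp : p.Prime) (hq : q.Prime) (hpq : q ≠ p)
    (hV : V.valuation (p : ℂ) < 1) : V.valuation (q : ℂ) = 1 := by
  have hc : IsCoprime (p : ℤ) (q : ℤ) := Nat.isCoprime_iff_coprime.2 ((Nat.coprime_primes hp hq).2 (Ne.symm hpq))
  obtain ⟨a, b, hab⟩ := hc
  have hab2 : (a : ℂ) * (p : ℂ) + (b : ℂ) * (q : ℂ) = 1 := by exact_mod_cast hab
  apply le_antisymm
  · exact_mod_cast val_nat_le V (q : ℤ)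
  · by_contra h
    push Not at h
    have h1 : V.valuation ((a : ℂ) * (p : ℂ)) < 1 := by
      rw [map_mul]
      calc _ ≤ 1 * V.valuation (p : ℂ) := mul_le_mul_left (val_nat_le V a) _
        _ < 1 := by rw [one_mul]; exact hV
    have h2 : V.valuation ((b : ℂ) * (q : ℂ)) < 1 := by
      rw [map_mul]
      calc _ ≤ 1 * V.valuation (q : ℂ) := mul_le_mul_left (val_nat_le V b) _
        _ < 1 := by rw [one_mul]; exact h
    have h3 := Valuation.map_add_lt _ h1 h2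
    rw [hab2, map_one] at h3
    exact lt_irrefl _ h3

lemma sqrt_sq (q : ℕ) : ((Real.sqrt q : ℝ) : ℂ) ^ 2 = (q : ℂ) := by
  rw [← Complex.ofReal_pow, Real.sq_sqrt (by positivity)]
  simp

lemma main (f : ℕ → ℕ → ℕ) (θ : ℕ → ℂ)
    (T : Finset ℕ) (hT : ∀ p ∈ T, p.Prime)
    (hθ : ∀ p ∈ T, expSum p (f p) = 2 * (Real.sqrt p : ℝ) * Complex.cos (θ p)) (n : ℕ → ℤ) (m : ℤ)
    (h : ∑ p ∈ T, (n p : ℂ) * θ p = m * (Real.pi : ℂ)) : ∀ p ∈ T, n p = 0 := by
  intro p hpT
  have hp := hT p hpT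
  obtain ⟨V, hV⟩ := exists_val p hp
  set z : ℕ → ℂ := fun q => Complex.exp (θ q * Complex.I) with hz
  have hz0 : ∀ q, z q ≠ 0 := fun q => Complex.exp_ne_zero _
  have hzs : ∀ q ∈ T, ((Real.sqrt (q : ℕ) : ℝ) : ℂ) * (z q + (z q)⁻¹) = expSum q (f q) := by
    intro q hq
    rw [hθ q hq, Complex.cos, hz]
    simp only
    rw [← Complex.exp_neg]
    ring_nf
  have hq1 : ∀ q ∈ T, q ≠ p → V.valuation (z q) = 1 := by
    intro q hqT hqp
    have hq := hT q hqT
    apply val_add_inv _ (hz0 q)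
    have h1 : V.valuation ((Real.sqrt q : ℝ) : ℂ) = 1 := by
      have h2 : V.valuation ((Real.sqrt q : ℝ) : ℂ) ^ 2 = 1 := by
        rw [← map_pow, sqrt_sq, val_other V p q hp hq hqp hV]
      exact pow1 two_ne_zero h2
    have h3 : V.valuation (((Real.sqrt q : ℝ) : ℂ) * (z q + (z q)⁻¹)) ≤ 1 := by
      rw [hzs q hqT]; exact val_expSum_le V q hq _
    rw [map_mul, h1, one_mul] at h3
    exact h3
  have hp1 : V.valuation (z p) ≠ 1 := by
    apply val_ne
    have h1 : V.valuation ((Real.sqrt p : ℝ) : ℂ) < 1 := by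
      have h2 : V.valuation ((Real.sqrt p : ℝ) : ℂ) ^ 2 < 1 := by
        rw [← map_pow, sqrt_sq]; exact hV
      by_contra h4
      exact absurd h2 (not_lt.2 (one_le_pow₀ (not_lt.1 h4)))
    have h3 : V.valuation (((Real.sqrt p : ℝ) : ℂ) * (z p + (z p)⁻¹)) = 1 := by
      rw [hzs p hpT]; exact val_expSum_self V p hp hV _
    by_contra h4
    push Not at h4
    have h5 : V.valuation (((Real.sqrt p : ℝ) : ℂ) * (z p + (z p)⁻¹)) < 1 := by
      rw [map_mul]
      calc _ ≤ V.valuation ((Real.sqrt p : ℝ) : ℂ) * 1 := mul_le_mul_right h4 _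
        _ < 1 := by rw [mul_one]; exact h1
    rw [h3] at h5
    exact lt_irrefl _ h5
  have hprod : ∏ q ∈ T, z q ^ (2 * n q) = 1 := by
    have h1 : ∀ q, z q ^ (2 * n q) = Complex.exp (2 * Complex.I * ((n q : ℂ) * θ q)) := by
      intro q
      simp only [hz]
      rw [← Complex.exp_int_mul]
      congr 1
      push_cast
      ring
    rw [prod_congr rfl (fun q _ => h1 q), ← Complex.exp_sum, ← mul_sum, h]
    have : (2 * Complex.I * ((m : ℂ) * (Real.pi : ℂ))) = (m : ℂ) * (2 * Real.pi * Complex.I) := by ring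
    rw [this]
    exact Complex.exp_int_mul_two_pi_mul_I m
  have hv : V.valuation (z p) ^ (2 * n p) = 1 := by
    have h1 : V.valuation (∏ q ∈ T, z q ^ (2 * n q)) = 1 := by rw [hprod, map_one]
    rw [map_prod, prod_eq_single p] at h1
    · rw [map_zpow₀] at h1; exact h1
    · intro q hq hqp
      rw [map_zpow₀, hq1 q hq hqp, one_zpow]
    · intro h2; exact absurd hpT h2
  by_contra hn
  have h2n : (2 * n p).natAbs ≠ 0 := by
    rw [Int.natAbs_ne_zero]; omega
  have hv2 : V.valuation (z p) ^ ((2 * n p).natAbs) = 1 := by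
    rcases Int.natAbs_eq (2 * n p) with h3 | h3
    · rw [h3, zpow_natCast] at hv; exact hv
    · rw [h3, zpow_neg, zpow_natCast, inv_eq_one] at hv; exact hv
  exact hp1 (pow1 h2n hv2)

/-- Let `T` be a finite set of primes. (1) If `θ p` (`p ∈ T`) are real numbers with `S(a p, b p; p) = 2 √p cos (θ p)`, where `a p`
and `b p` are integers, then there is no nontrivial relation with integer coefficients between `π` and the numbers `θ p`.
(2) The same for complex numbers `θ p` and the sums `∑_{x = 1}^{p - 1} e(f_p(x) / p)` with arbitrary functions `f_p`. -/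
theorem result :
    (∀ (T : Finset ℕ), (∀ p ∈ T, p.Prime) → ∀ (a b : ℕ → ℤ) (θ : ℕ → ℝ),
      (∀ p ∈ T, kloosterman (a p) (b p) p = ((2 * Real.sqrt p * Real.cos (θ p) : ℝ) : ℂ)) →
      ∀ (n : ℕ → ℤ) (m : ℤ), ∑ p ∈ T, (n p : ℝ) * θ p = m * Real.pi → (∀ p ∈ T, n p = 0) ∧ m = 0) ∧
    (∀ (T : Finset ℕ), (∀ p ∈ T, p.Prime) → ∀ (f : ℕ → ℕ → ℕ) (θ : ℕ → ℂ),
      (∀ p ∈ T, expSum p (f p) = 2 * (Real.sqrt p : ℝ) * Complex.cos (θ p)) →
      ∀ (n : ℕ → ℤ) (m : ℤ), ∑ p ∈ T, (n p : ℂ) * θ p = m * (Real.pi : ℂ) → (∀ p ∈ T, n p = 0) ∧ m = 0) := by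
  have hgen : ∀ (T : Finset ℕ), (∀ p ∈ T, p.Prime) → ∀ (f : ℕ → ℕ → ℕ) (θ : ℕ → ℂ),
      (∀ p ∈ T, expSum p (f p) = 2 * (Real.sqrt p : ℝ) * Complex.cos (θ p)) →
      ∀ (n : ℕ → ℤ) (m : ℤ), ∑ p ∈ T, (n p : ℂ) * θ p = m * (Real.pi : ℂ) → (∀ p ∈ T, n p = 0) ∧ m = 0 := by
    intro T hT f θ hθ n m h
    have h1 := main f θ T hT hθ n m h
    refine ⟨h1, ?_⟩
    have h2 : ∑ p ∈ T, (n p : ℂ) * θ p = 0 := by
      apply sum_eq_zero
      intro p hp
      rw [h1 p hp]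
      simp
    rw [h2] at h
    have h3 : (m : ℂ) * (Real.pi : ℂ) = 0 := h.symm
    rcases mul_eq_zero.1 h3 with h4 | h4
    · exact_mod_cast h4
    · exact absurd h4 (by exact_mod_cast Real.pi_ne_zero)
  refine ⟨?_, hgen⟩
  intro T hT a b θ hθ n m h
  refine hgen T hT (fun p x => ((((a p : ℤ) : ZMod p) * (x : ZMod p) + ((b p : ℤ) : ZMod p) * (x : ZMod p)⁻¹).val))
    (fun p => (θ p : ℂ)) ?_ n m ?_
  · intro p hp
    have h1 := hθ p hp
    unfold kloosterman at h1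
    rw [h1]
    push_cast
    rfl
  · have h2 : ((∑ p ∈ T, (n p : ℝ) * θ p : ℝ) : ℂ) = ((m * Real.pi : ℝ) : ℂ) := by rw [h]
    push_cast at h2
    exact h2

end Pool.Agent.Results.MP_6ea630_nt.AnglesIndependent
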